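import Mathlib
import Pool.Agent.Work.MP_db9399_co.Konig
import Pool.Agent.Work.MP_db9399_co.Galvin
import Pool.Agent.Work.MP_db9399_lin.Interface

/-! GAL: one bipartite part, by Koenig (reference labelling) and Galvin. -/

set_option autoImplicit false

namespace MP_db9399_co.Lin

universe u

open Finset

theorem stmt_GAL : Stmt_GAL.{u} := by
  intro V _ _ k kk side F0 Q L Fb hkk hLc hFb hF0 hQ hdeg hM hFQ hQQ hZ
  obtain ⟨γ0, hγ0⟩ : L.Nonempty := by rw [← card_pos]; omega
  haveI : Nonempty (Fin k) := ⟨γ0⟩
  let xe : V × V → V := fun e => if side e.1 = false then e.1 else e.2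
  let ye : V × V → V := fun e => if side e.1 = false then e.2 else e.1
  let S : Finset (V × V) := F0 ∪ univ.biUnion Q
  have hS : ∀ e, e ∈ S ↔ (e ∈ F0 ∨ ∃ j, e ∈ Q j) := by
    intro e
    simp [S]
  have hside : ∀ e ∈ S, side e.1 ≠ side e.2 := by
    intro e he
    rcases (hS e).1 he with h | ⟨j, h⟩
    · exact hF0 e h
    · exact hQ j e h
  -- the two ends
  have hends : ∀ e ∈ S, side (xe e) = false ∧ side (ye e) = true ∧
      ((xe e = e.1 ∧ ye e = e.2) ∨ (xe e = e.2 ∧ ye e = e.1)) := by
    intro e he
    have h := hside e he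
    by_cases h1 : side e.1 = false
    · have hx : xe e = e.1 := if_pos h1
      have hy : ye e = e.2 := if_pos h1
      refine ⟨by rw [hx, h1], ?_, Or.inl ⟨hx, hy⟩⟩
      rw [hy]
      rw [h1] at h
      cases h2 : side e.2
      · exact absurd h2.symm h
      · rfl
    · have hx : xe e = e.2 := if_neg h1
      have hy : ye e = e.1 := if_neg h1
      have h1' : side e.1 = true := by
        cases h2 : side e.1
        · exact absurd h2 h1
        · rfl
      refine ⟨?_, by rw [hy, h1'], Or.inr ⟨hx, hy⟩⟩
      rw [hx]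
      rw [h1'] at h
      cases h2 : side e.2
      · rfl
      · exact absurd h2.symm h
  -- sharing
  have hshare : ∀ e ∈ S, ∀ f ∈ S, Share e f ↔ (xe e = xe f ∨ ye e = ye f) := by
    intro e he f hf
    obtain ⟨e1, e2, e3⟩ := hends e he
    obtain ⟨f1, f2, f3⟩ := hends f hf
    constructor
    · intro h
      have hw : ∃ w, (w = xe e ∨ w = ye e) ∧ (w = xe f ∨ w = ye f) := by
        rcases h with h | h | h | h
        · refine ⟨e.1, ?_, ?_⟩
          · rcases e3 with ⟨a, b⟩ | ⟨a, b⟩
            · exact Or.inl a.symm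
            · exact Or.inr b.symm
          · rw [h]
            rcases f3 with ⟨a, b⟩ | ⟨a, b⟩
            · exact Or.inl a.symm
            · exact Or.inr b.symm
        · refine ⟨e.1, ?_, ?_⟩
          · rcases e3 with ⟨a, b⟩ | ⟨a, b⟩
            · exact Or.inl a.symm
            · exact Or.inr b.symm
          · rw [h]
            rcases f3 with ⟨a, b⟩ | ⟨a, b⟩
            · exact Or.inr b.symm
            · exact Or.inl a.symm
        · refine ⟨e.2, ?_, ?_⟩
          · rcases e3 with ⟨a, b⟩ | ⟨a, b⟩
            · exact Or.inr b.symm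
            · exact Or.inl a.symm
          · rw [h]
            rcases f3 with ⟨a, b⟩ | ⟨a, b⟩
            · exact Or.inl a.symm
            · exact Or.inr b.symm
        · refine ⟨e.2, ?_, ?_⟩
          · rcases e3 with ⟨a, b⟩ | ⟨a, b⟩
            · exact Or.inr b.symm
            · exact Or.inl a.symm
          · rw [h]
            rcases f3 with ⟨a, b⟩ | ⟨a, b⟩
            · exact Or.inr b.symm
            · exact Or.inl a.symm
      obtain ⟨w, hw1 | hw1, hw2 | hw2⟩ := hw
      · exact Or.inl (hw1.symm.trans hw2)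
      · exfalso
        rw [← hw1] at e1
        rw [← hw2] at f2
        rw [e1] at f2
        exact Bool.noConfusion f2
      · exfalso
        rw [← hw1] at e2
        rw [← hw2] at f1
        rw [e2] at f1
        exact Bool.noConfusion f1
      · exact Or.inr (hw1.symm.trans hw2)
    · intro h
      unfold Share
      rcases h with h | h <;> rcases e3 with ⟨a, b⟩ | ⟨a, b⟩ <;> rcases f3 with ⟨c, d⟩ | ⟨c, d⟩
      · rw [a, c] at h; exact Or.inl h
      · rw [a, c] at h; exact Or.inr (Or.inl h)
      · rw [a, c] at h; exact Or.inr (Or.inr (Or.inl h))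
      · rw [a, c] at h; exact Or.inr (Or.inr (Or.inr h))
      · rw [b, d] at h; exact Or.inr (Or.inr (Or.inr h))
      · rw [b, d] at h; exact Or.inr (Or.inr (Or.inl h))
      · rw [b, d] at h; exact Or.inr (Or.inl h)
      · rw [b, d] at h; exact Or.inl h
  have hxin : ∀ e ∈ S, ∀ v, xe e = v → e.1 = v ∨ e.2 = v := by
    intro e he v hv
    rcases (hends e he).2.2 with ⟨a, b⟩ | ⟨a, b⟩
    · exact Or.inl (a.symm.trans hv)
    · exact Or.inr (a.symm.trans hv)
  have hyin : ∀ e ∈ S, ∀ v, ye e = v → e.1 = v ∨ e.2 = v := by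
    intro e he v hv
    rcases (hends e he).2.2 with ⟨a, b⟩ | ⟨a, b⟩
    · exact Or.inr (b.symm.trans hv)
    · exact Or.inl (b.symm.trans hv)
  have hF0S : ∀ e ∈ F0, e ∈ S := fun e he => (hS e).2 (Or.inl he)
  have hQS : ∀ j, ∀ e ∈ Q j, e ∈ S := fun j e he => (hS e).2 (Or.inr ⟨j, he⟩)
  -- the reference labelling
  obtain ⟨κ0, hκ0, hκ0p⟩ := konig xe ye (kk - 4) F0
    (by
      intro v
      have h1 : (F0.filter (fun e => xe e = v)).card ≤ (inc F0 v).card := by
        apply card_le_card
        intro e he
        rw [mem_filter] at he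
        simp only [inc, mem_filter]
        exact ⟨he.1, hxin e (hF0S e he.1) v he.2⟩
      have := hdeg v
      omega)
    (by
      intro v
      have h1 : (F0.filter (fun e => ye e = v)).card ≤ (inc F0 v).card := by
        apply card_le_card
        intro e he
        rw [mem_filter] at he
        simp only [inc, mem_filter]
        exact ⟨he.1, hyin e (hF0S e he.1) v he.2⟩
      have := hdeg v
      omega)
  let lab : Fin 4 → ℕ := ![0, 1, kk - 1, kk - 2]
  have hlab0 : lab 0 = 0 := rfl
  have hlab1 : lab 1 = 1 := rfl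
  have hlab2 : lab 2 = kk - 1 := rfl
  have hlab3 : lab 3 = kk - 2 := rfl
  let κ : V × V → ℕ := fun e => if h : ∃ j, e ∈ Q j then lab (Classical.choose h) else 2 + κ0 e
  have hκQ : ∀ j, ∀ e ∈ Q j, κ e = lab j := by
    intro j e he
    have h : ∃ j, e ∈ Q j := ⟨j, he⟩
    have h1 : κ e = lab (Classical.choose h) := dif_pos h
    have h2 := Classical.choose_spec h
    have h3 : Classical.choose h = j := by
      by_contra hne
      exact Finset.disjoint_left.1 (hQQ _ _ hne) h2 he
    rw [h1, h3]
  have hκF : ∀ e ∈ F0, κ e = 2 + κ0 e := by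
    intro e he
    apply dif_neg
    rintro ⟨j, hj⟩
    exact Finset.disjoint_left.1 (hFQ j) he hj
  have hlabF : ∀ e ∈ F0, ∀ j, κ e ≠ lab j := by
    intro e he j
    have h1 := hκF e he
    have h2 := hκ0 e he
    rw [h1]
    fin_cases j
    · show 2 + κ0 e ≠ 0
      omega
    · show 2 + κ0 e ≠ 1
      omega
    · show 2 + κ0 e ≠ kk - 1
      omega
    · show 2 + κ0 e ≠ kk - 2
      omega
  have hlabinj : ∀ i j, i ≠ j → lab i ≠ lab j := by
    intro i j hij
    fin_cases i <;> fin_cases j <;> first | exact absurd rfl hij | skip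
    · show (0 : ℕ) ≠ 1; omega
    · show (0 : ℕ) ≠ kk - 1; omega
    · show (0 : ℕ) ≠ kk - 2; omega
    · show (1 : ℕ) ≠ 0; omega
    · show (1 : ℕ) ≠ kk - 1; omega
    · show (1 : ℕ) ≠ kk - 2; omega
    · show kk - 1 ≠ 0; omega
    · show kk - 1 ≠ 1; omega
    · show kk - 1 ≠ kk - 2; omega
    · show kk - 2 ≠ 0; omega
    · show kk - 2 ≠ 1; omega
    · show kk - 2 ≠ kk - 1; omega
  have hκp : ∀ e ∈ S, ∀ f ∈ S, e ≠ f → (xe e = xe f ∨ ye e = ye f) → κ e ≠ κ f := by
    intro e he f hf hne hxy
    rcases (hS e).1 he with h1 | ⟨i, h1⟩ <;> rcases (hS f).1 hf with h2 | ⟨j, h2⟩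
    · rw [hκF e h1, hκF f h2]
      have := hκ0p e h1 f h2 hne hxy
      omega
    · rw [hκQ j f h2]
      exact hlabF e h1 j
    · rw [hκQ i e h1]
      exact (hlabF f h2 i).symm
    · rw [hκQ i e h1, hκQ j f h2]
      apply hlabinj
      rintro rfl
      exact hne (hM i e h1 f h2 ((hshare e he f hf).2 hxy))
  have hκlt : ∀ e ∈ S, κ e < kk := by
    intro e he
    rcases (hS e).1 he with h1 | ⟨j, h1⟩
    · rw [hκF e h1]
      have := hκ0 e h1
      omega
    · rw [hκQ j e h1]
      fin_cases j
      · show 0 < kk; omega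
      · show 1 < kk; omega
      · show kk - 1 < kk; omega
      · show kk - 2 < kk; omega
  -- missing labels
  have hmem : ∀ (j : Fin 4) (e : V × V), e ∈ Q j → ∀ v, (e.1 = v ∨ e.2 = v) →
      v ∉ ZQ Fb L side j := by
    intro j e he v hv
    rcases hv with rfl | rfl
    · exact (hZ j e he).1
    · exact (hZ j e he).2
  have hlow : ∀ e ∈ S, (Fb (xe e) ∩ L).card ≤ κ e := by
    intro e he
    have hb := hFb (xe e)
    have hsd := (hends e he).1
    by_contra hcon
    push Not at hcon
    have hlt2 : κ e < 2 := by omega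
    rcases (hS e).1 he with h1 | ⟨j, h1⟩
    · rw [hκF e h1] at hlt2
      omega
    · have hz := hmem j e h1 _ (hxin e he _ rfl)
      have hk := hκQ j e h1
      fin_cases j
      · apply hz
        simp only [ZQ, mem_filter, mem_univ, true_and]
        refine ⟨by simpa using hsd, ?_⟩
        show 0 % 2 + 1 ≤ _
        omega
      · apply hz
        simp only [ZQ, mem_filter, mem_univ, true_and]
        refine ⟨by simpa using hsd, ?_⟩
        have hk' : κ e = 1 := hk
        show 1 % 2 + 1 ≤ _
        omega
      · have hk' : κ e = kk - 1 := hk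
        omega
      · have hk' : κ e = kk - 2 := hk
        omega
  have hhigh : ∀ e ∈ S, κ e + (Fb (ye e) ∩ L).card < kk := by
    intro e he
    have hb := hFb (ye e)
    have hsd := (hends e he).2.1
    by_contra hcon
    push Not at hcon
    have hge : kk - 2 ≤ κ e := by omega
    rcases (hS e).1 he with h1 | ⟨j, h1⟩
    · rw [hκF e h1] at hge
      have := hκ0 e h1
      omega
    · have hz := hmem j e h1 _ (hyin e he _ rfl)
      have hk := hκQ j e h1
      fin_cases j
      · have hk' : κ e = 0 := hk
        omega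
      · have hk' : κ e = 1 := hk
        omega
      · apply hz
        simp only [ZQ, mem_filter, mem_univ, true_and]
        refine ⟨by simpa using hsd, ?_⟩
        have hk' : κ e = kk - 1 := hk
        show 2 % 2 + 1 ≤ _
        omega
      · apply hz
        simp only [ZQ, mem_filter, mem_univ, true_and]
        refine ⟨by simpa using hsd, ?_⟩
        have hk' : κ e = kk - 2 := hk
        show 3 % 2 + 1 ≤ _
        omega
  -- Galvin
  obtain ⟨col, hcol1, hcol2⟩ := galvin xe ye κ (fun e => kk - 1 - κ e) S
    (by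
      intro e he f hf hx hk
      by_contra hne
      exact hκp e he f hf hne (Or.inl hx) hk)
    (by
      intro e he f hf hy hk
      by_contra hne
      apply hκp e he f hf hne (Or.inr hy)
      have h1 := hκlt e he
      have h2 := hκlt f hf
      omega)
    (fun e => L \ (Fb e.1 ∪ Fb e.2))
    (by
      intro e he
      have h1 : (S.filter (fun f => xe f = xe e ∧ κ f < κ e)).card ≤
          κ e - (Fb (xe e) ∩ L).card := by
        refine le_trans (b := (Finset.Ico ((Fb (xe e) ∩ L).card) (κ e)).card) ?_
          (by rw [Nat.card_Ico])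
        apply card_le_card_of_injOn κ
        · intro f hf
          simp only [coe_filter, Set.mem_ofPred_eq] at hf
          have := hlow f hf.1
          rw [hf.2.1] at this
          simp only [coe_Ico, Set.mem_Ico]
          exact ⟨this, hf.2.2⟩
        · intro f hf g hg hfg
          simp only [coe_filter, Set.mem_ofPred_eq] at hf hg
          by_contra hne
          exact hκp f hf.1 g hg.1 hne (Or.inl (hf.2.1.trans hg.2.1.symm)) hfg
      have h2 : (S.filter (fun f => ye f = ye e ∧ kk - 1 - κ f < kk - 1 - κ e)).card ≤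
          (kk - (Fb (ye e) ∩ L).card) - (κ e + 1) := by
        refine le_trans (b := (Finset.Ico (κ e + 1) (kk - (Fb (ye e) ∩ L).card)).card) ?_
          (by rw [Nat.card_Ico])
        apply card_le_card_of_injOn κ
        · intro f hf
          simp only [coe_filter, Set.mem_ofPred_eq] at hf
          have h3 := hhigh f hf.1
          have h4 := hκlt f hf.1
          rw [hf.2.1] at h3
          have h5 := hf.2.2
          simp only [coe_Ico, Set.mem_Ico]
          constructor
          · omega
          · omega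
        · intro f hf g hg hfg
          simp only [coe_filter, Set.mem_ofPred_eq] at hf hg
          by_contra hne
          exact hκp f hf.1 g hg.1 hne (Or.inr (hf.2.1.trans hg.2.1.symm)) hfg
      have h3 : kk ≤ (L \ (Fb e.1 ∪ Fb e.2)).card + (Fb (xe e) ∩ L).card +
          (Fb (ye e) ∩ L).card := by
        have h4 : L ⊆ (L \ (Fb e.1 ∪ Fb e.2)) ∪ ((Fb (xe e) ∩ L) ∪ (Fb (ye e) ∩ L)) := by
          intro γ hγ
          simp only [mem_union, mem_sdiff, mem_inter]
          rcases (hends e he).2.2 with ⟨a, b⟩ | ⟨a, b⟩ <;> rw [a, b] <;> tauto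
        have h5 := card_le_card h4
        have h6 := card_union_le (L \ (Fb e.1 ∪ Fb e.2)) ((Fb (xe e) ∩ L) ∪ (Fb (ye e) ∩ L))
        have h7 := card_union_le (Fb (xe e) ∩ L) (Fb (ye e) ∩ L)
        omega
      have h8 := hlow e he
      have h9 := hhigh e he
      omega)
  refine ⟨col, ?_, ?_⟩
  · intro e he
    have h1 := hcol1 e ((hS e).2 he)
    rw [mem_sdiff, mem_union, not_or] at h1
    exact ⟨h1.1, h1.2.1, h1.2.2⟩
  · intro e f he hf hne hsh
    have he' := (hS e).2 he
    have hf' := (hS f).2 hf
    exact hcol2 e he' f hf' hne ((hshare e he' f hf').1 hsh)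

end MP_db9399_co.Lin
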