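import Mathlib
import Pool.Agent.Work.MP_db9399_lin.Interface

/-! TYP: every edge chooses a cut which it crosses, with bounded degrees in each cut. -/

set_option autoImplicit false

namespace MP_db9399_co.Lin

universe u

open Finset

namespace TYP

/-- Hall's theorem with capacities. -/
lemma hall_cap {E : Type*} [DecidableEq E] {m : ℕ} (hm : 1 ≤ m) (X0 : Finset E)
    (I : E → Finset (Fin m)) (c : Fin m → ℕ)
    (h : ∀ J : Finset (Fin m), (X0.filter (fun e => I e ⊆ J)).card ≤ ∑ i ∈ J, c i) :
    ∃ g : E → Fin m, (∀ e ∈ X0, g e ∈ I e) ∧ ∀ i, (X0.filter (fun e => g e = i)).card ≤ c i := by
  classical
  let t : {e // e ∈ X0} → Finset (Σ i, Fin (c i)) := fun e => (I e.1).sigma fun _ => univ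
  have hall : ∀ s : Finset {e // e ∈ X0}, s.card ≤ (s.biUnion t).card := by
    intro s
    let J : Finset (Fin m) := s.biUnion fun e => I e.1
    have h1 : s.card ≤ (X0.filter (fun e => I e ⊆ J)).card := by
      apply card_le_card_of_injOn (fun e => e.1)
      · intro e he
        simp only [coe_filter, Set.mem_ofPred_eq]
        refine ⟨e.2, ?_⟩
        intro i hi
        exact mem_biUnion.2 ⟨e, he, hi⟩
      · intro e _ e' _ hee
        exact Subtype.ext hee
    have h2 : s.biUnion t = J.sigma fun _ => univ := by
      ext ⟨i, k⟩
      simp only [t, J, mem_biUnion, mem_sigma, mem_univ, and_true]
    rw [h2, card_sigma]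
    simp only [card_univ, Fintype.card_fin]
    exact h1.trans (h J)
  obtain ⟨f, hf, hft⟩ := (Finset.all_card_le_biUnion_card_iff_exists_injective t).1 hall
  refine ⟨fun e => if h : e ∈ X0 then (f ⟨e, h⟩).1 else ⟨0, hm⟩, ?_, ?_⟩
  · intro e he
    simp only [dif_pos he]
    have := hft ⟨e, he⟩
    simp only [t, mem_sigma] at this
    exact this.1
  · intro i
    have h1 : (X0.filter (fun e => (if h : e ∈ X0 then (f ⟨e, h⟩).1 else ⟨0, hm⟩) = i)) ⊆
        (univ.filter (fun e : {e // e ∈ X0} => (f e).1 = i)).image Subtype.val := by
      intro e he
      rw [mem_filter] at he
      obtain ⟨he, hei⟩ := he
      rw [dif_pos he] at hei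
      rw [mem_image]
      exact ⟨⟨e, he⟩, by simp [hei], rfl⟩
    refine (card_le_card h1).trans (card_image_le.trans ?_)
    have h2 : (univ.filter (fun e : {e // e ∈ X0} => (f e).1 = i)).image f ⊆
        (univ : Finset (Fin (c i))).image (Sigma.mk i) := by
      intro p hp
      rw [mem_image] at hp
      obtain ⟨e, he, rfl⟩ := hp
      rw [mem_filter] at he
      obtain ⟨_, hei⟩ := he
      subst hei
      rw [mem_image]
      exact ⟨(f e).2, mem_univ _, rfl⟩
    have h3 := card_le_card h2
    rw [card_image_of_injective _ hf] at h3
    refine h3.trans (card_image_le.trans ?_)
    rw [card_univ, Fintype.card_fin]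

/-- The number of codes which agree with `b0` outside `J`. -/
lemma card_codes {m : ℕ} (J : Finset (Fin m)) (b0 : Fin m → Bool) :
    (Fintype.piFinset fun i => if i ∈ J then (univ : Finset Bool) else {b0 i}).card =
      2 ^ J.card := by
  rw [Fintype.card_piFinset]
  have h1 : ∀ i, (if i ∈ J then (univ : Finset Bool) else {b0 i}).card =
      if i ∈ J then 2 else 1 := by
    intro i
    by_cases h : i ∈ J
    · simp [h]
    · simp [h]
  simp only [h1]
  rw [Finset.prod_ite]
  simp

end TYP

open TYP

theorem stmt_TYP : Stmt_TYP.{u} := by
  intro V _ _ r F m B s q f cap hm hr hrF hfF hB hs hinc hq hnum
  have main : ∀ n : ℕ, ∃ ty : V × V → Fin m,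
      (∀ e ∈ F, r e.1 < n → f e.1 (ty e) ≠ f e.2 (ty e)) ∧
      ∀ w, r w < n → ∀ i, ((inc F w).filter (fun e => ty e = i)).card ≤ cap i := by
    intro n
    induction n with
    | zero =>
      exact ⟨fun _ => ⟨0, hm⟩, fun e _ h => absurd h (Nat.not_lt_zero _),
        fun w h => absurd h (Nat.not_lt_zero _)⟩
    | succ n ih =>
      obtain ⟨ty, hty1, hty2⟩ := ih
      by_cases hw : ∃ w, r w = n
      · obtain ⟨w, hw⟩ := hw
        -- the backward edges of `w`
        let back : Fin m → ℕ := fun i => ((bwd F w).filter (fun e => ty e = i)).card
        have hback : ∑ i, back i = (bwd F w).card := by
          rw [Finset.card_eq_sum_card_fiberwise (f := ty) (t := univ) (fun _ _ => by simp)]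
        have hincw : (inc F w).card = (fwd F w).card + (bwd F w).card := by
          have h1 : inc F w = fwd F w ∪ bwd F w := by
            ext e
            simp only [inc, fwd, bwd, mem_filter, mem_union]
            tauto
          rw [h1, card_union_of_disjoint]
          rw [Finset.disjoint_left]
          intro e he he'
          simp only [fwd, bwd, mem_filter] at he he'
          have := hrF e he.1
          rw [he.2, he'.2] at this
          exact lt_irrefl _ this
        obtain ⟨g, hg1, hg2⟩ := hall_cap hm (fwd F w)
          (fun e => univ.filter (fun i => f w i ≠ f e.2 i)) (fun i => cap i - back i) (by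
            intro J
            by_cases hJ0 : J = ∅
            · subst hJ0
              rw [Finset.sum_empty, Nat.le_zero, card_eq_zero, filter_eq_empty_iff]
              intro e he hsub
              simp only [fwd, mem_filter] at he
              have h1 := hfF e he.1
              apply h1
              funext i
              by_contra hne
              have h2 : i ∈ univ.filter (fun i => f w i ≠ f e.2 i) := by
                rw [mem_filter]
                exact ⟨mem_univ _, by rw [← he.2]; exact hne⟩
              have := hsub h2
              simp at this
            · have hsumback : ∀ J : Finset (Fin m), ∑ i ∈ J, back i ≤ (bwd F w).card := by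
                intro J
                rw [← hback]
                exact Finset.sum_le_sum_of_subset (subset_univ _)
              have hsub : ∀ J : Finset (Fin m), ∑ i ∈ J, cap i ≤
                  ∑ i ∈ J, (cap i - back i) + ∑ i ∈ J, back i := by
                intro J
                rw [← Finset.sum_add_distrib]
                apply Finset.sum_le_sum
                intro i _
                omega
              by_cases hJ1 : J = univ
              · have h1 := hinc w
                have h2 := hsub univ
                have h3 := hsumback univ
                have h4 := card_filter_le (fwd F w)
                  (fun e => univ.filter (fun i => f w i ≠ f e.2 i) ⊆ J)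
                rw [hJ1] at h4 ⊢
                omega
              · have hj1 : 1 ≤ J.card := by
                  rw [Nat.one_le_iff_ne_zero, Ne, card_eq_zero]
                  exact hJ0
                have hj2 : J.card < m := by
                  have h1 : J ⊂ univ := (Finset.ssubset_univ_iff).2 hJ1
                  have h2 := card_lt_card h1
                  rwa [card_univ, Fintype.card_fin] at h2
                have h1 : ((fwd F w).filter
                    (fun e => univ.filter (fun i => f w i ≠ f e.2 i) ⊆ J)).card ≤
                    2 ^ J.card * B := by
                  have h2 : ((fwd F w).filter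
                      (fun e => univ.filter (fun i => f w i ≠ f e.2 i) ⊆ J)) ⊆
                      (Fintype.piFinset fun i => if i ∈ J then (univ : Finset Bool)
                        else {f w i}).biUnion fun b => (fwd F w).filter (fun e => f e.2 = b) := by
                    intro e he
                    rw [mem_filter] at he
                    rw [mem_biUnion]
                    refine ⟨f e.2, ?_, by rw [mem_filter]; exact ⟨he.1, rfl⟩⟩
                    rw [Fintype.mem_piFinset]
                    intro i
                    by_cases hi : i ∈ J
                    · simp [hi]
                    · rw [if_neg hi, mem_singleton]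
                      by_contra hne
                      apply hi
                      apply he.2
                      rw [mem_filter]
                      exact ⟨mem_univ _, fun h => hne h.symm⟩
                  refine (card_le_card h2).trans (card_biUnion_le.trans ?_)
                  refine (Finset.sum_le_card_nsmul _ _ B (fun b _ => hB w b)).trans ?_
                  rw [card_codes, smul_eq_mul]
                have h2 := hnum J.card hj1 hj2
                have h3 := hsub J
                have h4 := hsumback J
                have h5 := hs w
                have h6 : J.card * q ≤ ∑ i ∈ J, cap i := by
                  rw [← smul_eq_mul]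
                  exact Finset.card_nsmul_le_sum _ _ _ (fun i _ => hq i)
                omega)
        refine ⟨fun e => if e ∈ fwd F w then g e else ty e, ?_, ?_⟩
        · intro e he hen
          by_cases hef : e ∈ fwd F w
          · simp only [if_pos hef]
            have h1 := hg1 e hef
            rw [mem_filter] at h1
            simp only [fwd, mem_filter] at hef
            rw [hef.2]
            exact h1.2
          · simp only [if_neg hef]
            apply hty1 e he
            rcases Nat.lt_succ_iff_lt_or_eq.1 hen with h | h
            · exact h
            · exfalso
              apply hef
              simp only [fwd, mem_filter]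
              exact ⟨he, hr (h.trans hw.symm)⟩
        · intro w' hw' i
          rcases Nat.lt_succ_iff_lt_or_eq.1 hw' with h | h
          · have h1 : (inc F w').filter (fun e => (if e ∈ fwd F w then g e else ty e) = i) =
                (inc F w').filter (fun e => ty e = i) := by
              apply filter_congr
              intro e he
              have hef : e ∉ fwd F w := by
                intro hef
                simp only [inc, fwd, mem_filter] at he hef
                have h2 := hrF e he.1
                rcases he.2 with h3 | h3
                · rw [hef.2] at h3
                  rw [← h3, hw] at h
                  exact lt_irrefl _ h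
                · rw [hef.2, h3, hw] at h2
                  omega
              rw [if_neg hef]
            rw [h1]
            exact hty2 w' h i
          · have hww : w' = w := hr (h.trans hw.symm)
            subst hww
            have h1 : (inc F w').filter (fun e => (if e ∈ fwd F w' then g e else ty e) = i) ⊆
                (fwd F w').filter (fun e => g e = i) ∪ (bwd F w').filter (fun e => ty e = i) := by
              intro e he
              rw [mem_filter] at he
              obtain ⟨he1, he2⟩ := he
              rw [mem_union, mem_filter, mem_filter]
              by_cases hef : e ∈ fwd F w'
              · rw [if_pos hef] at he2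
                exact Or.inl ⟨hef, he2⟩
              · rw [if_neg hef] at he2
                right
                refine ⟨?_, he2⟩
                simp only [inc, fwd, bwd, mem_filter] at he1 hef ⊢
                refine ⟨he1.1, ?_⟩
                rcases he1.2 with h3 | h3
                · exact absurd ⟨he1.1, h3⟩ hef
                · exact h3
            refine (card_le_card h1).trans ((card_union_le _ _).trans ?_)
            have h2 := hg2 i
            have h3 : back i ≤ cap i := by
              have h4 : back i ≤ s := (card_filter_le _ _).trans (hs w')
              have h5 := hq i
              rcases Nat.lt_or_ge 1 m with h6 | h6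
              · have h7 := hnum 1 le_rfl h6
                omega
              · -- m = 1: all incident edges have the same type
                have h7 : ∑ i, cap i = cap i := by
                  have hm1 : m = 1 := le_antisymm h6 hm
                  subst hm1
                  rw [Fin.sum_univ_one]
                  congr 1
                  exact Subsingleton.elim _ _
                have h8 := hinc w'
                rw [h7, hincw] at h8
                have h9 : back i ≤ (bwd F w').card := card_filter_le _ _
                omega
            show _ + back i ≤ cap i
            omega
      · refine ⟨ty, fun e he hen => hty1 e he ?_, fun w' hw' i => hty2 w' ?_ i⟩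
        · rcases Nat.lt_succ_iff_lt_or_eq.1 hen with h | h
          · exact h
          · exact absurd ⟨_, h⟩ hw
        · rcases Nat.lt_succ_iff_lt_or_eq.1 hw' with h | h
          · exact h
          · exact absurd ⟨_, h⟩ hw
  obtain ⟨ty, h1, h2⟩ := main ((univ.sup r) + 1)
  have hlt : ∀ w, r w < univ.sup r + 1 := fun w =>
    Nat.lt_succ_of_le (Finset.le_sup (f := r) (mem_univ w))
  exact ⟨ty, fun e he => h1 e he (hlt _), fun w i => h2 w (hlt w) i⟩

end MP_db9399_co.Lin
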